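import Pool.Agent.H87.AX.Targets4
import Pool.Agent.H67.SN.GEO

/-!
# MP_2697e3_an, row GE2 of the board `axs_modules`: geometry of the target
-/

set_option autoImplicit false

namespace Pool.Agent.H8.AX

open Pool.Agent.H87.SN Pool.Agent.H87.SH Pool.Agent.H87.AX
open MeasureTheory Metric Set Filter Topology
open scoped ContDiff RealInnerProductSpace ENNReal

theorem pf_GE2 : T_GE2 := by
  intro m N A hN hA
  have hAc : ContinuousOn A N := hA.continuousOn
  obtain ⟨C, hC⟩ : ∃ C : ℝ, ∀ x ∈ N, ‖A x‖ ≤ C :=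
    IsCompact.exists_bound_of_continuousOn (E := E m →L[ℝ] E m →L[ℝ] E m) hN hAc
  obtain ⟨CA, hCA⟩ : ∃ CA, CA = max C 0 := ⟨_, rfl⟩
  have hCA0 : 0 ≤ CA := by
    rw [hCA]
    exact le_max_right _ _
  have hAb : ∀ q ∈ N, ∀ v w : E m, ‖A q v w‖ ≤ CA * ‖v‖ * ‖w‖ := by
    intro q hq v w
    have h1 : ‖A q v w‖ ≤ ‖A q v‖ * ‖w‖ := (A q v).le_opNorm w
    have h2 : ‖A q v‖ ≤ ‖A q‖ * ‖v‖ := (A q).le_opNorm v
    have h3 : ‖A q‖ ≤ CA := by
      rw [hCA]
      exact (hC q hq).trans (le_max_left _ _)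
    calc ‖A q v w‖ ≤ ‖A q v‖ * ‖w‖ := h1
      _ ≤ (‖A q‖ * ‖v‖) * ‖w‖ := mul_le_mul_of_nonneg_right h2 (norm_nonneg _)
      _ ≤ (CA * ‖v‖) * ‖w‖ := by gcongr
  refine ⟨max CA (CA ^ 2), le_trans hCA0 (le_max_left _ _), ?_⟩
  intro n U v hU hv hvN x hx h k l
  have htan : ∀ w : E n, IsTangent N (v x) (fderiv ℝ v x w) :=
    fun w => Pool.Agent.H67.SN.tangent_of hU hv hvN hx w
  have hnu : ∀ w : E n, ∀ τ : E m, IsTangent N (v x) τ →
      ⟪A (v x) (fderiv ℝ v x w) (fderiv ℝ v x w), τ⟫ = 0 := by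
    intro w τ hτ
    exact hA.normal (v x) (hvN x hx) _ _ τ (htan _) (htan _) hτ
  refine ⟨?_, ?_, ?_⟩
  · rw [real_inner_comm]
    exact hnu k _ (htan h)
  · have h1 := hAb (v x) (hvN x hx) (fderiv ℝ v x h) (fderiv ℝ v x h)
    calc ‖A (v x) (fderiv ℝ v x h) (fderiv ℝ v x h)‖ ≤ CA * ‖fderiv ℝ v x h‖ ^ 2 := by
          rw [sq, ← mul_assoc]
          exact h1
      _ ≤ max CA (CA ^ 2) * ‖fderiv ℝ v x h‖ ^ 2 :=
          mul_le_mul_of_nonneg_right (le_max_left _ _) (sq_nonneg _)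
  · set c : ℝ → E n := fun s => x + (s • h + (s ^ 2 / 2) • k) with hc
    have hc0 : c 0 = x := by simp [hc]
    have hcd : ∀ s : ℝ, HasDerivAt c (h + s • k) s := by
      intro s
      have h1 : HasDerivAt (fun s : ℝ => s • h) h s := by
        have := (hasDerivAt_id s).smul_const h
        simpa using this
      have h2 : HasDerivAt (fun s : ℝ => (s ^ 2 / 2) • k) (s • k) s := by
        have h3 : HasDerivAt (fun s : ℝ => s ^ 2 / 2) s s := by
          have h4 := (hasDerivAt_pow 2 s).div_const 2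
          have h5 : ((2 : ℕ) : ℝ) * s ^ (2 - 1) / 2 = s := by norm_num
          rw [h5] at h4
          exact h4
        exact h3.smul_const k
      exact (h1.add h2).const_add x
    have hcC : ContDiff ℝ 2 c := by
      rw [hc]
      exact contDiff_const.add ((contDiff_id.smul contDiff_const).add
        (((contDiff_id.pow 2).div_const 2).smul contDiff_const))
    set γ : ℝ → E m := fun s => v (c s) with hγ
    have hvx : ContDiffAt ℝ ∞ v x := hv.contDiffAt (hU.mem_nhds hx)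
    have hγ2 : ContDiffAt ℝ 2 γ 0 := by
      have h1 : ContDiffAt ℝ 2 v (c 0) := by
        rw [hc0]
        exact hvx.of_le (by norm_cast)
      exact h1.comp 0 hcC.contDiffAt
    have htend : Tendsto c (𝓝 0) (𝓝 x) := by
      have := hcC.continuous.tendsto 0
      rwa [hc0] at this
    have hev : ∀ᶠ s in 𝓝 (0 : ℝ), c s ∈ U := htend.eventually (hU.mem_nhds hx)
    have hγN : ∀ᶠ s in 𝓝 (0 : ℝ), γ s ∈ N := by
      filter_upwards [hev] with s hs
      exact hvN _ hs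
    have hγ0 : γ 0 = v x := by
      show v (c 0) = v x
      rw [hc0]
    have hd1 : ∀ s : ℝ, c s ∈ U → HasDerivAt γ (fderiv ℝ v (c s) (h + s • k)) s := by
      intro s hs
      have h1 : HasFDerivAt v (fderiv ℝ v (c s)) (c s) :=
        ((hv.contDiffAt (hU.mem_nhds hs)).differentiableAt (by simp)).hasFDerivAt
      exact h1.comp_hasDerivAt s (hcd s)
    have hd1e : deriv γ =ᶠ[𝓝 0] fun s => fderiv ℝ v (c s) (h + s • k) := by
      filter_upwards [hev] with s hs
      exact (hd1 s hs).deriv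
    have hx0 : c 0 ∈ U := by rw [hc0]; exact hx
    have hdγ0 : deriv γ 0 = fderiv ℝ v x h := by
      rw [(hd1 0 hx0).deriv, hc0, zero_smul, add_zero]
    have hdd : deriv (deriv γ) 0 = fderiv ℝ (fderiv ℝ v) x h h + fderiv ℝ v x k := by
      rw [hd1e.deriv_eq]
      have h0 : ContDiffOn ℝ ∞ (fderiv ℝ v) U := hv.fderiv_of_isOpen hU (by simp)
      have h1 : HasFDerivAt (fderiv ℝ v) (fderiv ℝ (fderiv ℝ v) (c 0)) (c 0) :=
        ((h0.contDiffAt (hU.mem_nhds hx0)).differentiableAt (by simp)).hasFDerivAt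
      have h2 : HasDerivAt (fun s => fderiv ℝ v (c s)) (fderiv ℝ (fderiv ℝ v) (c 0)
          (h + (0 : ℝ) • k)) 0 := h1.comp_hasDerivAt 0 (hcd 0)
      have h3 : HasDerivAt (fun s : ℝ => h + s • k) k 0 := by
        have := ((hasDerivAt_id (0 : ℝ)).smul_const k).const_add h
        simpa using this
      have h4 := (h2.clm_apply h3).deriv
      rw [hc0, zero_smul, add_zero] at h4
      exact h4
    have hcurve : ⟪fderiv ℝ (fderiv ℝ v) x h h + fderiv ℝ v x k,
        A (v x) (fderiv ℝ v x l) (fderiv ℝ v x l)⟫ =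
        - ⟪A (v x) (fderiv ℝ v x h) (fderiv ℝ v x h),
          A (v x) (fderiv ℝ v x l) (fderiv ℝ v x l)⟫ := by
      have h1 := hA.curve γ hγ2 hγN (A (v x) (fderiv ℝ v x l) (fderiv ℝ v x l)) (by
        intro τ hτ
        rw [hγ0] at hτ
        exact hnu l τ hτ)
      rw [hdd, hdγ0, hγ0, inner_add_left] at h1
      linarith
    rw [hcurve, abs_neg]
    refine (abs_real_inner_le_norm _ _).trans ?_
    have h1 := hAb (v x) (hvN x hx) (fderiv ℝ v x h) (fderiv ℝ v x h)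
    have h2 := hAb (v x) (hvN x hx) (fderiv ℝ v x l) (fderiv ℝ v x l)
    calc _ ≤ (CA * ‖fderiv ℝ v x h‖ * ‖fderiv ℝ v x h‖) * (CA * ‖fderiv ℝ v x l‖ *
          ‖fderiv ℝ v x l‖) := mul_le_mul h1 h2 (norm_nonneg _) (by positivity)
      _ = CA ^ 2 * (‖fderiv ℝ v x h‖ ^ 2 * ‖fderiv ℝ v x l‖ ^ 2) := by ring
      _ ≤ max CA (CA ^ 2) * (‖fderiv ℝ v x h‖ ^ 2 * ‖fderiv ℝ v x l‖ ^ 2) :=
          mul_le_mul_of_nonneg_right (le_max_right _ _) (by positivity)
      _ = _ := by ring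

end Pool.Agent.H8.AX
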