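import Pool.Agent.H8.AX.KVF

/-!
# MP_2697e3_an, rows JGI and NBH of the board `axs_modules`
-/

set_option autoImplicit false

namespace Pool.Agent.H8.AX

open Pool.Agent.H87.SN Pool.Agent.H87.SH Pool.Agent.H87.AX
open MeasureTheory Metric Set Filter Topology
open scoped ContDiff RealInnerProductSpace ENNReal

theorem kerV_nonneg {s τ : ℝ} {q : ℝ × ℝ} (hs : 0 < s) : 0 ≤ kerV s τ q :=
  mul_nonneg (Real.rpow_nonneg (div_pos hs (den_pos hs)).le _) (Real.sqrt_nonneg _)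

theorem kerV_meas : Measurable fun z : (ℝ × (ℝ × ℝ)) × ℝ => kerV z.2 z.1.1 z.1.2 := by
  unfold kerV
  have h1 : Measurable fun z : (ℝ × (ℝ × ℝ)) × ℝ =>
      z.2 / (z.2 ^ 2 + z.1.2.1 ^ 2 + (z.1.1 - z.1.2.2) ^ 2 / 100) := by fun_prop
  exact (h1.pow_const _).mul (by fun_prop)

theorem pf_JGI (_hKVF : T_KVF) (hKVI : T_KVI) : T_JGI := by
  obtain ⟨C, hC0, hC⟩ := hKVI
  refine ⟨C, hC0, ?_⟩
  intro ν hν
  have : IsFiniteMeasure ν := ⟨lt_top_iff_ne_top.2 hν.fin⟩
  have hF : Measurable fun z : (ℝ × (ℝ × ℝ)) × ℝ =>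
      ENNReal.ofReal (kerV z.2 z.1.1 z.1.2 / z.2) :=
    (kerV_meas.div measurable_snd).ennreal_ofReal
  have h1 : ∀ τ : ℝ, ∀ s ∈ Ioi (0 : ℝ), ENNReal.ofReal (Jn ν s τ / s) ≤
      ∫⁻ q, ENNReal.ofReal (kerV s τ q / s) ∂ν := by
    intro τ s hs
    have hs0 : 0 < s := hs
    have e : Jn ν s τ / s = ∫ q, kerV s τ q / s ∂ν := by
      unfold Jn
      rw [integral_div]
    rw [e]
    calc ENNReal.ofReal (∫ q, kerV s τ q / s ∂ν) ≤ ‖∫ q, kerV s τ q / s ∂ν‖ₑ := by
          rw [← ofReal_norm]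
          exact ENNReal.ofReal_le_ofReal (le_abs_self _)
      _ ≤ ∫⁻ q, ‖kerV s τ q / s‖ₑ ∂ν := enorm_integral_le_lintegral_enorm _
      _ = ∫⁻ q, ENNReal.ofReal (kerV s τ q / s) ∂ν := by
          refine lintegral_congr fun q => ?_
          rw [Real.enorm_of_nonneg (div_nonneg (kerV_nonneg hs0) hs0.le)]
  calc ∫⁻ τ : ℝ, ∫⁻ s in Ioi (0 : ℝ), ENNReal.ofReal (Jn ν s τ / s)
      ≤ ∫⁻ τ : ℝ, ∫⁻ s in Ioi (0 : ℝ), ∫⁻ q, ENNReal.ofReal (kerV s τ q / s) ∂ν :=
        lintegral_mono fun τ => setLIntegral_mono' measurableSet_Ioi (h1 τ)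
    _ = ∫⁻ τ : ℝ, ∫⁻ q, (∫⁻ s in Ioi (0 : ℝ), ENNReal.ofReal (kerV s τ q / s)) ∂ν := by
        refine lintegral_congr fun τ => ?_
        refine lintegral_lintegral_swap ?_
        have h2 : Measurable fun z : ℝ × (ℝ × ℝ) => (((τ, z.2), z.1) : (ℝ × (ℝ × ℝ)) × ℝ) := by
          fun_prop
        exact (hF.comp h2).aemeasurable
    _ = ∫⁻ q, (∫⁻ τ : ℝ, ∫⁻ s in Ioi (0 : ℝ), ENNReal.ofReal (kerV s τ q / s)) ∂ν := by
        refine lintegral_lintegral_swap ?_
        exact (hF.lintegral_prod_right').aemeasurable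
    _ ≤ ∫⁻ _q, ENNReal.ofReal C ∂ν := by
        refine lintegral_mono_ae ?_
        have h3 : ∀ᵐ q ∂ν, ¬ q.1 ≤ 0 := by
          rw [ae_iff]
          have e : {a : ℝ × ℝ | ¬ ¬ a.1 ≤ 0} = {q | q.1 ≤ 0} := by
            ext q
            simp
          rw [e]
          exact hν.pos
        filter_upwards [h3] with q hq
        exact hC q (lt_of_not_ge hq)
    _ = ENNReal.ofReal C * ν univ := by
        rw [lintegral_const]

theorem kerV_le {s τ : ℝ} {q : ℝ × ℝ} (hKVF : T_KVF) (hs : 0 < s) : kerV s τ q ≤ s⁻¹ := by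
  rcases le_or_gt q.1 0 with hq | hq
  · unfold kerV
    rw [Real.sqrt_eq_zero_of_nonpos hq, mul_zero]
    positivity
  · exact (hKVF.1 s τ q hs hq).2

theorem kerV_int {s τ : ℝ} (hKVF : T_KVF) (hs : 0 < s) (ν : Measure (ℝ × ℝ))
    [IsFiniteMeasure ν] : Integrable (fun q => kerV s τ q) ν := by
  have h2 : Measurable fun q : ℝ × ℝ => (((τ, q), s) : (ℝ × (ℝ × ℝ)) × ℝ) := by fun_prop
  have h3 : Measurable fun q : ℝ × ℝ => kerV s τ q := kerV_meas.comp h2
  refine Integrable.of_bound h3.aestronglyMeasurable s⁻¹ ?_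
  refine Eventually.of_forall fun q => ?_
  rw [Real.norm_of_nonneg (kerV_nonneg hs)]
  exact kerV_le hKVF hs

theorem pf_NBH (hKVF : T_KVF) : T_NBH := by
  intro ν p hν hp hA
  have : IsFiniteMeasure ν := ⟨lt_top_iff_ne_top.2 hν.fin⟩
  set s := p.1 with hs
  set S : Set (ℝ × ℝ) := Ioo (p.1 - p.1 / 16) (p.1 + p.1 / 16) ×ˢ
    Ioo (p.2 - p.1 / 16) (p.2 + p.1 / 16) with hS
  have hSm : MeasurableSet S := measurableSet_Ioo.prod measurableSet_Ioo
  have hSs : S ⊆ {q | |q.1 - p.1| < p.1 / 16 ∧ |q.2 - p.2| < p.1 / 16} := by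
    rintro q ⟨⟨h1, h2⟩, h3, h4⟩
    refine ⟨?_, ?_⟩
    · rw [abs_lt]
      constructor <;> linarith
    · rw [abs_lt]
      constructor <;> linarith
  have h1 := hA S hSm hSs
  have hvol : volume S = ENNReal.ofReal (s / 8 * (s / 8)) := by
    rw [hS, Measure.volume_eq_prod, Measure.prod_prod, Real.volume_Ioo, Real.volume_Ioo,
      ← ENNReal.ofReal_mul (by linarith)]
    congr 1
    ring
  have h2 : ENNReal.ofReal (16 / (17 * s) * (s / 8 * (s / 8))) ≤ ν S := by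
    refine le_trans ?_ h1
    calc ENNReal.ofReal (16 / (17 * s) * (s / 8 * (s / 8))) =
          ENNReal.ofReal (16 / (17 * s)) * volume S := by
          rw [hvol, ← ENNReal.ofReal_mul (by positivity)]
      _ = ∫⁻ _q in S, ENNReal.ofReal (16 / (17 * s)) := by
          rw [setLIntegral_const]
      _ ≤ ∫⁻ q in S, ENNReal.ofReal (1 / q.1) := by
          refine setLIntegral_mono' hSm fun q hq => ENNReal.ofReal_le_ofReal ?_
          obtain ⟨⟨h3, h4⟩, -⟩ := hq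
          rw [div_le_div_iff₀ (by positivity) (by linarith)]
          linarith
  have h3 : 16 / (17 * s) * (s / 8 * (s / 8)) ≤ ν.real S := by
    rw [Measure.real, ← ENNReal.ofReal_le_iff_le_toReal (measure_ne_top ν S)]
    exact h2
  have hint := kerV_int (s := s) (τ := p.2) hKVF hp ν
  have h4 : 3 / (10 * s) * ν.real S ≤ ∫ q in S, kerV s p.2 q ∂ν := by
    refine setIntegral_ge_of_const_le_real hSm (measure_ne_top ν S) ?_ hint.integrableOn
    intro q hq
    obtain ⟨h5, h6⟩ := hSs hq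
    have h7 := hKVF.2.2.2.2 s p.2 q hp h5 h6
    rw [div_le_iff₀ (by positivity)]
    linarith
  have h5 : ∫ q in S, kerV s p.2 q ∂ν ≤ Jn ν s p.2 := by
    unfold Jn
    exact setIntegral_le_integral hint (Eventually.of_forall fun q => kerV_nonneg hp)
  calc c0 ≤ 3 / (10 * s) * (16 / (17 * s) * (s / 8 * (s / 8))) := by
        have e : 3 / (10 * s) * (16 / (17 * s) * (s / 8 * (s / 8))) = 48 / 10880 := by
          field_simp
          norm_num
        rw [e]
        unfold c0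
        norm_num
    _ ≤ 3 / (10 * s) * ν.real S := mul_le_mul_of_nonneg_left h3 (by positivity)
    _ ≤ _ := h4.trans h5

end Pool.Agent.H8.AX
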