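import Pool.Agent.H87.AX.Targets4
import Pool.Agent.H49.SN.KIN
import Pool.Agent.H45.SN.KER

/-!
# MP_2697e3_an, rows KVF and KVI of the board `axs_modules`: the kernel on the half plane
-/

set_option autoImplicit false

namespace Pool.Agent.H8.AX

open Pool.Agent.H87.SN Pool.Agent.H87.SH Pool.Agent.H87.AX
open MeasureTheory Metric Set Filter Topology
open scoped ContDiff RealInnerProductSpace ENNReal

theorem pow32 {X : ℝ} (hX : 0 < X) : X ^ (3 / 2 : ℝ) = X * Real.sqrt X := by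
  have h1 : (3 / 2 : ℝ) = 1 + 1 / 2 := by norm_num
  rw [h1, Real.rpow_add hX, Real.rpow_one, Real.sqrt_eq_rpow]

theorem den_pos {s τ : ℝ} {q : ℝ × ℝ} (hs : 0 < s) :
    0 < s ^ 2 + q.1 ^ 2 + (τ - q.2) ^ 2 / 100 := by positivity

theorem kerV_eq {s τ : ℝ} {q : ℝ × ℝ} (hs : 0 < s) :
    kerV s τ q = s / (s ^ 2 + q.1 ^ 2 + (τ - q.2) ^ 2 / 100) *
      Real.sqrt (s / (s ^ 2 + q.1 ^ 2 + (τ - q.2) ^ 2 / 100) * q.1) := by
  have hD := den_pos (τ := τ) (q := q) hs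
  unfold kerV
  rw [pow32 (div_pos hs hD), Real.sqrt_mul (div_pos hs hD).le, mul_assoc]

theorem pf_KVF : T_KVF := by
  refine ⟨fun s τ q hs hq => ⟨?_, ?_⟩, ?_, fun s τ q hs hq => ⟨?_, ?_⟩, ?_, ?_⟩
  · have hD := den_pos (τ := τ) (q := q) hs
    exact mul_pos (Real.rpow_pos_of_pos (div_pos hs hD) _) (Real.sqrt_pos.2 hq)
  · have hD := den_pos (τ := τ) (q := q) hs
    rw [kerV_eq hs]
    set D := s ^ 2 + q.1 ^ 2 + (τ - q.2) ^ 2 / 100 with hDd
    have h0 : (0 : ℝ) ≤ (τ - q.2) ^ 2 / 100 := by positivity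
    have h1 : s / D ≤ s⁻¹ := by
      rw [inv_eq_one_div, div_le_div_iff₀ hD hs]
      nlinarith [sq_nonneg q.1]
    have h2 : s / D * q.1 ≤ 1 := by
      rw [div_mul_eq_mul_div, div_le_one hD]
      nlinarith [sq_nonneg (s - q.1)]
    have h3 : Real.sqrt (s / D * q.1) ≤ 1 := by
      rw [← Real.sqrt_one]
      exact Real.sqrt_le_sqrt h2
    calc s / D * Real.sqrt (s / D * q.1) ≤ s⁻¹ * 1 :=
          mul_le_mul h1 h3 (Real.sqrt_nonneg _) (by positivity)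
      _ = s⁻¹ := mul_one _
  · intro q hq p hp
    have hp' : 0 < p.1 := hp
    have hD := den_pos (τ := p.2) (q := q) hp'
    have h1 : ContDiffAt ℝ 1
        (fun p : ℝ × ℝ => p.1 / (p.1 ^ 2 + q.1 ^ 2 + (p.2 - q.2) ^ 2 / 100)) p := by
      apply ContDiffAt.div contDiffAt_fst _ hD.ne'
      exact ((contDiffAt_fst.pow 2).add contDiffAt_const).add
        (((contDiffAt_snd.sub contDiffAt_const).pow 2).div_const 100)
    have h2 : ContDiffAt ℝ 1 (fun p : ℝ × ℝ =>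
        (p.1 / (p.1 ^ 2 + q.1 ^ 2 + (p.2 - q.2) ^ 2 / 100)) ^ (3 / 2 : ℝ)) p :=
      h1.rpow_const_of_ne (div_pos hp' hD).ne'
    exact (h2.mul contDiffAt_const).contDiffWithinAt
  · have hD := den_pos (τ := τ) (q := q) hs
    have h0 : HasDerivAt (fun x : ℝ => x ^ 2 + q.1 ^ 2 + (τ - q.2) ^ 2 / 100) (2 * s) s := by
      have h := ((hasDerivAt_pow 2 s).add_const (q.1 ^ 2)).add_const ((τ - q.2) ^ 2 / 100)
      have h' : ((2 : ℕ) : ℝ) * s ^ (2 - 1) = 2 * s := by norm_num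
      rw [h'] at h
      exact h
    have h1 : HasDerivAt (fun x : ℝ => x / (x ^ 2 + q.1 ^ 2 + (τ - q.2) ^ 2 / 100))
        ((1 * (s ^ 2 + q.1 ^ 2 + (τ - q.2) ^ 2 / 100) - s * (2 * s)) /
          (s ^ 2 + q.1 ^ 2 + (τ - q.2) ^ 2 / 100) ^ 2) s :=
      (hasDerivAt_id s).div h0 hD.ne'
    have h2 := (h1.rpow_const (p := (3 / 2 : ℝ)) (Or.inl (div_pos hs hD).ne')).mul_const
      (Real.sqrt q.1)
    have h3 : deriv (fun x => kerV x τ q) s = _ := h2.deriv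
    rw [h3]
    have h4 := Pool.Agent.H45.SN.ker_bound (s := s)
      (D := s ^ 2 + q.1 ^ 2 + (τ - q.2) ^ 2 / 100) (b := 1)
      (N := 1 * (s ^ 2 + q.1 ^ 2 + (τ - q.2) ^ 2 / 100) - s * (2 * s)) hs hD ?_
    · have h6 : (3 / 2 * 1 : ℝ) = 3 / 2 := by norm_num
      rw [h6] at h4
      rw [← mul_assoc, abs_mul, abs_of_nonneg (Real.sqrt_nonneg q.1)]
      unfold kerV
      rw [← mul_assoc (3 / 2 : ℝ)]
      exact mul_le_mul_of_nonneg_right h4 (Real.sqrt_nonneg _)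
    · have h7 : (0 : ℝ) ≤ (τ - q.2) ^ 2 := sq_nonneg _
      have h8 : (0 : ℝ) ≤ s ^ 2 := sq_nonneg s
      have h9 : (0 : ℝ) ≤ q.1 ^ 2 := sq_nonneg _
      rw [abs_le]
      constructor <;> nlinarith
  · have hD := den_pos (τ := τ) (q := q) hs
    have h0 : HasDerivAt (fun y : ℝ => s ^ 2 + q.1 ^ 2 + (y - q.2) ^ 2 / 100)
        (2 * (τ - q.2) / 100) τ := by
      have h := ((((hasDerivAt_id τ).sub_const q.2).pow 2).div_const 100).const_add
        (s ^ 2 + q.1 ^ 2)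
      have h' : ((2 : ℕ) : ℝ) * (id τ - q.2) ^ (2 - 1) * 1 / 100 = 2 * (τ - q.2) / 100 := by
        norm_num
      rw [h'] at h
      exact h
    have h1 : HasDerivAt (fun y : ℝ => s / (s ^ 2 + q.1 ^ 2 + (y - q.2) ^ 2 / 100))
        ((0 * (s ^ 2 + q.1 ^ 2 + (τ - q.2) ^ 2 / 100) - s * (2 * (τ - q.2) / 100)) /
          (s ^ 2 + q.1 ^ 2 + (τ - q.2) ^ 2 / 100) ^ 2) τ :=
      (hasDerivAt_const τ s).div h0 hD.ne'
    have h2 := (h1.rpow_const (p := (3 / 2 : ℝ)) (Or.inl (div_pos hs hD).ne')).mul_const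
      (Real.sqrt q.1)
    have h3 : deriv (fun y => kerV s y q) τ = _ := h2.deriv
    rw [h3]
    have h4 := Pool.Agent.H45.SN.ker_bound (s := s)
      (D := s ^ 2 + q.1 ^ 2 + (τ - q.2) ^ 2 / 100) (b := 1 / 10)
      (N := 0 * (s ^ 2 + q.1 ^ 2 + (τ - q.2) ^ 2 / 100) - s * (2 * (τ - q.2) / 100)) hs hD ?_
    · have h6 : (3 / 2 * (1 / 10) : ℝ) = 3 / 20 := by norm_num
      rw [h6] at h4
      rw [← mul_assoc, abs_mul, abs_of_nonneg (Real.sqrt_nonneg q.1)]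
      unfold kerV
      rw [← mul_assoc (3 / 20 : ℝ)]
      exact mul_le_mul_of_nonneg_right h4 (Real.sqrt_nonneg _)
    · rw [abs_le]
      have h7 := sq_nonneg (s - (τ - q.2) / 10)
      have h8 := sq_nonneg (s + (τ - q.2) / 10)
      have h9 := sq_nonneg q.1
      constructor <;> nlinarith
  · intro s s' τ τ' q hs hs' hq h1 h2
    have hD := den_pos (τ := τ) (q := q) hs
    have hD' := den_pos (τ := τ') (q := q) hs'
    rw [abs_le] at h1 h2
    have hDD : 3 / 4 * (s' ^ 2 + q.1 ^ 2 + (τ' - q.2) ^ 2 / 100) ≤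
        s ^ 2 + q.1 ^ 2 + (τ - q.2) ^ 2 / 100 := by
      have a1 : 49 / 64 * s' ^ 2 ≤ s ^ 2 := by nlinarith
      have a2 : (τ' - τ) ^ 2 ≤ s' ^ 2 / 64 := by nlinarith
      have a3 : 3 / 4 * (τ' - q.2) ^ 2 - 3 * (τ' - τ) ^ 2 ≤ (τ - q.2) ^ 2 := by
        nlinarith [sq_nonneg ((τ - q.2) - 3 * (τ' - τ))]
      nlinarith [sq_nonneg q.1, sq_nonneg s']
    rw [kerV_eq hs, kerV_eq hs']
    set D := s ^ 2 + q.1 ^ 2 + (τ - q.2) ^ 2 / 100 with hDd
    set D' := s' ^ 2 + q.1 ^ 2 + (τ' - q.2) ^ 2 / 100 with hDd'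
    have h3 : s / D ≤ 3 / 2 * (s' / D') := by
      rw [← mul_div_assoc, div_le_div_iff₀ hD hD']
      have hs9 : s ≤ 9 / 8 * s' := by linarith
      calc s * D' ≤ (9 / 8 * s') * D' := mul_le_mul_of_nonneg_right hs9 hD'.le
        _ = 3 / 2 * s' * (3 / 4 * D') := by ring
        _ ≤ 3 / 2 * s' * D := mul_le_mul_of_nonneg_left hDD (by positivity)
    have h4 : Real.sqrt (s / D * q.1) ≤ 4 / 3 * Real.sqrt (s' / D' * q.1) := by
      have e : (4 / 3 : ℝ) = Real.sqrt ((4 / 3) ^ 2) := by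
        rw [Real.sqrt_sq (by norm_num)]
      rw [e, ← Real.sqrt_mul (by positivity)]
      apply Real.sqrt_le_sqrt
      have h5 : s / D * q.1 ≤ 3 / 2 * (s' / D') * q.1 := mul_le_mul_of_nonneg_right h3 hq.le
      have h6 : 0 ≤ s' / D' * q.1 := by positivity
      nlinarith
    calc s / D * Real.sqrt (s / D * q.1) ≤
        (3 / 2 * (s' / D')) * (4 / 3 * Real.sqrt (s' / D' * q.1)) :=
          mul_le_mul h3 h4 (Real.sqrt_nonneg _) (by positivity)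
      _ = 2 * (s' / D' * Real.sqrt (s' / D' * q.1)) := by ring
  · intro s τ q hs h1 h2
    rw [abs_lt] at h1 h2
    have hD := den_pos (τ := τ) (q := q) hs
    rw [kerV_eq hs]
    have hq1 : 15 / 16 * s ≤ q.1 := by linarith
    have hDs : s ^ 2 + q.1 ^ 2 + (τ - q.2) ^ 2 / 100 ≤ 213 / 100 * s ^ 2 := by
      have a1 : q.1 ^ 2 ≤ (17 / 16 * s) ^ 2 := by
        apply pow_le_pow_left₀ (by linarith)
        linarith
      have a2 : (τ - q.2) ^ 2 ≤ (s / 16) ^ 2 := by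
        apply sq_le_sq'
        · linarith
        · linarith
      nlinarith
    set D := s ^ 2 + q.1 ^ 2 + (τ - q.2) ^ 2 / 100 with hDd
    have h3 : 100 / 213 ≤ s * (s / D) := by
      rw [← mul_div_assoc, div_le_div_iff₀ (by norm_num) hD]
      nlinarith
    have h4 : (65 / 100 : ℝ) ≤ Real.sqrt (s / D * q.1) := by
      apply Real.le_sqrt_of_sq_le
      have h5 : s / D * (15 / 16 * s) ≤ s / D * q.1 :=
        mul_le_mul_of_nonneg_left hq1 (by positivity)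
      have h6 : s / D * (15 / 16 * s) = 15 / 16 * (s * (s / D)) := by ring
      rw [h6] at h5
      nlinarith
    calc (3 / 10 : ℝ) ≤ 100 / 213 * (65 / 100) := by norm_num
      _ ≤ (s * (s / D)) * Real.sqrt (s / D * q.1) :=
          mul_le_mul h3 h4 (by norm_num) (by positivity)
      _ = s * (s / D * Real.sqrt (s / D * q.1)) := by ring

theorem kerV_bound {s τ : ℝ} {q : ℝ × ℝ} (hs : 0 < s) (hq : 0 < q.1) :
    kerV s τ q / s ≤ 6000 * Real.sqrt q.1 * ((q.1 + |τ - q.2|) + s) ^ (-(5 / 2 : ℝ)) := by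
  obtain ⟨t, ht⟩ : ∃ t, t = τ - q.2 := ⟨_, rfl⟩
  obtain ⟨v, hv⟩ : ∃ v : ℝ, v = (q.1 + |t|) + s := ⟨_, rfl⟩
  rw [← ht, ← hv]
  have hτ : 0 ≤ |t| := abs_nonneg t
  have hv0 : 0 < v := by
    rw [hv]
    linarith
  have hτ2 : |t| ^ 2 = t ^ 2 := sq_abs t
  obtain ⟨D, hD⟩ : ∃ D : ℝ, D = s ^ 2 + q.1 ^ 2 + t ^ 2 / 100 := ⟨_, rfl⟩
  have hD0 : 0 < D := by
    rw [hD]
    positivity
  have hD1 : v ^ 2 ≤ 300 * D := by
    rw [hD, hv]
    nlinarith [sq_nonneg (s - |t|), sq_nonneg s, sq_nonneg (q.1 - |t|), sq_nonneg (q.1 - s),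
      sq_nonneg q.1, sq_nonneg t]
  have hD2 : s * v ≤ 400 * D := by
    have h1 : s * v ≤ v * v := mul_le_mul_of_nonneg_right (by rw [hv]; linarith) hv0.le
    nlinarith
  have hX : kerV s τ q = (s / D) * Real.sqrt (s / D) * Real.sqrt q.1 := by
    unfold kerV
    rw [← ht, ← hD, pow32 (div_pos hs hD0)]
  have hv5 : v ^ (-(5 / 2 : ℝ)) = (v ^ 2)⁻¹ * (Real.sqrt v)⁻¹ := by
    have h1 : (-(5 / 2 : ℝ)) = -2 + -(1 / 2) := by norm_num
    rw [h1, Real.rpow_add hv0, Real.rpow_neg hv0.le, Real.rpow_neg hv0.le, Real.sqrt_eq_rpow]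
    norm_num
  have h1 : s / D / s ≤ 300 * (v ^ 2)⁻¹ := by
    have h2 : s / D / s = 1 / D := by
      field_simp
    rw [h2, ← div_eq_mul_inv, div_le_div_iff₀ hD0 (by positivity)]
    linarith
  have h2 : Real.sqrt (s / D) ≤ 20 * (Real.sqrt v)⁻¹ := by
    have h3 : s / D ≤ 400 / v := by
      rw [div_le_div_iff₀ hD0 hv0]
      exact hD2
    have h4 : Real.sqrt (400 / v) = 20 * (Real.sqrt v)⁻¹ := by
      rw [Real.sqrt_div (by norm_num), show (400 : ℝ) = 20 ^ 2 by norm_num,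
        Real.sqrt_sq (by norm_num), div_eq_mul_inv]
    rw [← h4]
    exact Real.sqrt_le_sqrt h3
  rw [hX, hv5]
  calc s / D * Real.sqrt (s / D) * Real.sqrt q.1 / s =
        ((s / D / s) * Real.sqrt (s / D)) * Real.sqrt q.1 := by ring
    _ ≤ ((300 * (v ^ 2)⁻¹) * (20 * (Real.sqrt v)⁻¹)) * Real.sqrt q.1 :=
        mul_le_mul_of_nonneg_right (mul_le_mul h1 h2 (Real.sqrt_nonneg _) (by positivity))
          (Real.sqrt_nonneg _)
    _ = 6000 * Real.sqrt q.1 * ((v ^ 2)⁻¹ * (Real.sqrt v)⁻¹) := by ring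

theorem pf_KVI : T_KVI := by
  refine ⟨16000, by norm_num, ?_⟩
  intro q hq
  have hin : ∀ τ : ℝ, ∫⁻ s in Ioi (0 : ℝ), ENNReal.ofReal (kerV s τ q / s) ≤
      ENNReal.ofReal (4000 * Real.sqrt q.1 * (q.1 + |τ - q.2|) ^ (-(3 / 2 : ℝ))) := by
    intro τ
    have hc : 0 < q.1 + |τ - q.2| := by
      have := abs_nonneg (τ - q.2)
      linarith
    calc ∫⁻ s in Ioi (0 : ℝ), ENNReal.ofReal (kerV s τ q / s)
        ≤ ∫⁻ s in Ioi (0 : ℝ), ENNReal.ofReal (6000 * Real.sqrt q.1) *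
            ENNReal.ofReal (((q.1 + |τ - q.2|) + s) ^ (-(5 / 2 : ℝ))) := by
          refine setLIntegral_mono' measurableSet_Ioi fun s hs => ?_
          have hs0 : 0 < s := hs
          rw [← ENNReal.ofReal_mul (by positivity)]
          exact ENNReal.ofReal_le_ofReal (kerV_bound hs0 hq)
      _ = ENNReal.ofReal (6000 * Real.sqrt q.1) *
            ENNReal.ofReal ((q.1 + |τ - q.2|) ^ (1 - (5 / 2 : ℝ)) / (5 / 2 - 1)) := by
          rw [lintegral_const_mul' _ _ ENNReal.ofReal_ne_top,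
            Pool.Agent.H49.SN.lint_tail _ _ hc (by norm_num)]
      _ = ENNReal.ofReal (4000 * Real.sqrt q.1 * (q.1 + |τ - q.2|) ^ (-(3 / 2 : ℝ))) := by
          rw [← ENNReal.ofReal_mul (by positivity)]
          congr 1
          rw [show 1 - (5 / 2 : ℝ) = -(3 / 2) by norm_num]
          ring
  calc ∫⁻ τ : ℝ, ∫⁻ s in Ioi (0 : ℝ), ENNReal.ofReal (kerV s τ q / s)
      ≤ ∫⁻ τ : ℝ, ENNReal.ofReal (4000 * Real.sqrt q.1 *
          (q.1 + |τ - q.2|) ^ (-(3 / 2 : ℝ))) := lintegral_mono fun τ => hin τ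
    _ = ∫⁻ τ : ℝ, ENNReal.ofReal (4000 * Real.sqrt q.1 * (q.1 + |τ|) ^ (-(3 / 2 : ℝ))) :=
        lintegral_sub_right_eq_self
          (fun τ : ℝ => ENNReal.ofReal (4000 * Real.sqrt q.1 * (q.1 + |τ|) ^ (-(3 / 2 : ℝ)))) q.2
    _ ≤ 2 * ∫⁻ τ in Ioi (0 : ℝ), ENNReal.ofReal (4000 * Real.sqrt q.1 *
          (q.1 + τ) ^ (-(3 / 2 : ℝ))) :=
        Pool.Agent.H49.SN.lint_abs
          (fun τ => ENNReal.ofReal (4000 * Real.sqrt q.1 * (q.1 + τ) ^ (-(3 / 2 : ℝ))))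
    _ = ENNReal.ofReal 2 * (ENNReal.ofReal (4000 * Real.sqrt q.1) *
          ENNReal.ofReal (q.1 ^ (1 - (3 / 2 : ℝ)) / (3 / 2 - 1))) := by
        rw [← Pool.Agent.H49.SN.lint_tail q.1 (3 / 2) hq (by norm_num),
          ← lintegral_const_mul' _ _ ENNReal.ofReal_ne_top]
        congr 1
        · norm_num
        · refine lintegral_congr fun τ => ?_
          rw [← ENNReal.ofReal_mul (by positivity)]
    _ = ENNReal.ofReal 16000 := by
        rw [← ENNReal.ofReal_mul (by positivity), ← ENNReal.ofReal_mul (by positivity)]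
        congr 1
        have h1 : q.1 ^ (1 - (3 / 2 : ℝ)) = (Real.sqrt q.1)⁻¹ := by
          rw [show 1 - (3 / 2 : ℝ) = -(1 / 2) by norm_num, Real.rpow_neg hq.le,
            ← Real.sqrt_eq_rpow]
        have h2 : Real.sqrt q.1 ≠ 0 := (Real.sqrt_pos.2 hq).ne'
        rw [h1]
        field_simp
        norm_num

end Pool.Agent.H8.AX
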