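import Pool.Agent.H87.AX.Targets4

/-!
# MP_2697e3_an, row TMZ of the board `axs_modules`: scaling in the plane
-/

set_option autoImplicit false

namespace Pool.Agent.H8.AX

open Pool.Agent.H87.SN Pool.Agent.H87.SH Pool.Agent.H87.AX
open MeasureTheory Metric Set Filter Topology
open scoped ContDiff RealInnerProductSpace ENNReal

section sc

variable {n m : ℕ} (v : E n → E m) (c : E n) (r : ℝ)

theorem sc_fderiv {F : Type*} [NormedAddCommGroup F] [NormedSpace ℝ F] (v : E n → F) (y : E n) :
    fderiv ℝ (fun y => v (c + r • y)) y = r • fderiv ℝ v (c + r • y) := by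
  have h1 := fderiv_comp_smul (𝕜 := ℝ) (f := fun z => v (c + z)) (x := y) r
  rw [fderiv_comp_add_left] at h1
  exact h1

theorem sc_fderiv2 (y : E n) : fderiv ℝ (fderiv ℝ (fun y => v (c + r • y))) y =
    r • r • fderiv ℝ (fderiv ℝ v) (c + r • y) := by
  have h1 : fderiv ℝ (fun y => v (c + r • y)) = r • fun y => fderiv ℝ v (c + r • y) := by
    funext y
    rw [sc_fderiv]
    rfl
  rw [h1]
  have h2 := congrFun (fderiv_const_smul_field (𝕜 := ℝ)
    (f := fun y => fderiv ℝ v (c + r • y)) r) y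
  rw [Pi.smul_apply, sc_fderiv] at h2
  exact h2

theorem sc_en (y : E n) : en (fun y => v (c + r • y)) y = r ^ 2 * en v (c + r • y) := by
  unfold en nsq
  rw [sc_fderiv, Finset.mul_sum]
  refine Finset.sum_congr rfl fun i _ => ?_
  rw [smul_apply, norm_smul, mul_pow, Real.norm_eq_abs, sq_abs]

theorem sc_lap (y : E n) : lap (fun y => v (c + r • y)) y = r ^ 2 • lap v (c + r • y) := by
  unfold lap
  rw [sc_fderiv2, Finset.smul_sum]
  refine Finset.sum_congr rfl fun i _ => ?_
  rw [smul_apply, smul_apply,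
    smul_apply, smul_apply, smul_smul, sq]

theorem sc_hsq (y : E n) : hsq (fun y => v (c + r • y)) y = (r ^ 2) ^ 2 * hsq v (c + r • y) := by
  unfold hsq
  rw [sc_fderiv2, Finset.mul_sum]
  refine Finset.sum_congr rfl fun i _ => ?_
  rw [Finset.mul_sum]
  refine Finset.sum_congr rfl fun j _ => ?_
  rw [smul_apply, smul_apply,
    smul_apply, smul_apply, smul_smul, norm_smul,
    mul_pow, Real.norm_eq_abs, sq_abs]
  ring

variable {c r}

/-- change of variables -/
theorem sc_lint (hr : 0 < r) (f : E n → ℝ≥0∞) (S : Set (E n)) :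
    ENNReal.ofReal (r ^ n) * ∫⁻ y in (fun y : E n => c + r • y) ⁻¹' S, f (c + r • y) =
      ∫⁻ x in S, f x := by
  set e : E n ≃ᵐ E n := (Homeomorph.smulOfNeZero r hr.ne').toMeasurableEquiv.trans
    (MeasurableEquiv.addLeft c) with he
  have hef : (e : E n → E n) = fun y => c + r • y := rfl
  have hmap : Measure.map e volume = ENNReal.ofReal |(r ^ n)⁻¹| • (volume : Measure (E n)) := by
    have h1 : (e : E n → E n) = (fun x => c + x) ∘ (fun y => r • y) := rfl
    rw [h1, ← Measure.map_map (measurable_const_add c) (measurable_const_smul r),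
      Measure.map_addHaar_smul volume hr.ne', Measure.map_smul, map_add_left_eq_self,
      finrank_euclideanSpace_fin]
  have h2 : ∫⁻ x in S, f x ∂(Measure.map e volume) =
      ∫⁻ y in (fun y : E n => c + r • y) ⁻¹' S, f (c + r • y) := by
    rw [MeasurableEquiv.restrict_map, lintegral_map_equiv]
    rfl
  rw [← h2, hmap, Measure.restrict_smul, lintegral_smul_measure, smul_eq_mul, ← mul_assoc,
    ← ENNReal.ofReal_mul (by positivity), abs_of_pos (by positivity), mul_inv_cancel₀
      (by positivity), ENNReal.ofReal_one, one_mul]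

theorem sc_ball (hr : 0 < r) (ρ : ℝ) :
    (fun y : E n => c + r • y) ⁻¹' (ball c (r * ρ)) = ball 0 ρ := by
  ext y
  rw [mem_preimage, mem_ball, mem_ball, dist_eq_norm, dist_zero_right, add_sub_cancel_left,
    norm_smul, Real.norm_of_nonneg hr.le]
  exact mul_lt_mul_iff_right₀ hr

theorem sc_closedBall (hr : 0 < r) (ρ : ℝ) :
    (fun y : E n => c + r • y) ⁻¹' (closedBall c (r * ρ)) = closedBall 0 ρ := by
  ext y
  rw [mem_preimage, mem_closedBall, mem_closedBall, dist_eq_norm, dist_zero_right,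
    add_sub_cancel_left, norm_smul, Real.norm_of_nonneg hr.le]
  exact mul_le_mul_iff_right₀ hr

end sc

theorem pf_TMZ : T_TMZ := by
  intro m L T v c r R hL hT hr hr1 hR hTM
  have hmem : ∀ y ∈ ball (0 : E 2) R, c + r • y ∈ ball c (r * R) := by
    intro y hy
    rw [← sc_ball (c := c) hr R] at hy
    exact hy
  have hen0 : ∀ x, 0 ≤ en v x := by
    intro x
    unfold en nsq
    exact Finset.sum_nonneg fun i _ => sq_nonneg _
  have hsqe : ∀ x, Real.sqrt (r ^ 2 * en v x) = r * Real.sqrt (en v x) := by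
    intro x
    rw [Real.sqrt_mul (sq_nonneg r), Real.sqrt_sq hr.le]
  have hk : ENNReal.ofReal (r ^ 2) * ENNReal.ofReal (r ^ 2)⁻¹ = 1 := by
    rw [← ENNReal.ofReal_mul (by positivity), mul_inv_cancel₀ (by positivity), ENNReal.ofReal_one]
  refine ⟨⟨?_, ?_, ?_, ?_⟩, fun y _ => sc_en v c r y, ?_⟩
  · have h1 : ContDiff ℝ ∞ (fun y : E 2 => c + r • y) :=
      contDiff_const.add (contDiff_id.const_smul r)
    exact hTM.smooth.comp h1.contDiffOn hmem
  · intro y hy
    rw [sc_lap, sc_en, norm_smul, Real.norm_of_nonneg (by positivity)]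
    have h1 := hTM.lapb _ (hmem y hy)
    calc r ^ 2 * ‖lap v (c + r • y)‖ ≤ r ^ 2 * (L * (1 + en v (c + r • y))) := by gcongr
      _ = L * (r ^ 2 + r ^ 2 * en v (c + r • y)) := by ring
      _ ≤ L * (1 + r ^ 2 * en v (c + r • y)) := by
          have : r ^ 2 ≤ 1 := by nlinarith
          gcongr
  · intro y hy h
    rw [sc_lap, sc_en, sc_fderiv, hsqe, smul_apply, inner_smul_left,
      inner_smul_right, norm_smul, Real.norm_of_nonneg hr.le]
    have h1 := hTM.tan _ (hmem y hy) h
    have h2 := Real.sqrt_nonneg (en v (c + r • y))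
    have h3 : |(starRingEnd ℝ) r * (r ^ 2 * ⟪fderiv ℝ v (c + r • y) h, lap v (c + r • y)⟫)| =
        r ^ 3 * |⟪fderiv ℝ v (c + r • y) h, lap v (c + r • y)⟫| := by
      rw [conj_trivial, ← mul_assoc, abs_mul, abs_of_pos (by positivity)]
      ring
    rw [h3]
    calc r ^ 3 * |⟪fderiv ℝ v (c + r • y) h, lap v (c + r • y)⟫| ≤
        r ^ 3 * (T * (1 + Real.sqrt (en v (c + r • y))) * ‖fderiv ℝ v (c + r • y) h‖) := by
          gcongr
      _ = T * (r + r * Real.sqrt (en v (c + r • y))) * (r ^ 2 * ‖fderiv ℝ v (c + r • y) h‖) := by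
          ring
      _ ≤ T * (1 + r * Real.sqrt (en v (c + r • y))) * (r ^ 2 * ‖fderiv ℝ v (c + r • y) h‖) := by
          gcongr
      _ = _ := by ring
  · intro y hy h k
    rw [sc_lap, sc_en, sc_fderiv, sc_fderiv2, hsqe]
    have h1 := hTM.ang _ (hmem y hy) (r • h) (r • k)
    have h2 := Real.sqrt_nonneg (en v (c + r • y))
    have e1 : (r • r • fderiv ℝ (fderiv ℝ v) (c + r • y)) h h +
        (r • fderiv ℝ v (c + r • y)) k = fderiv ℝ (fderiv ℝ v) (c + r • y) (r • h) (r • h) +
        fderiv ℝ v (c + r • y) (r • k) := by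
      simp only [smul_apply, map_smul]
    have e2 : (r • fderiv ℝ v (c + r • y)) h = fderiv ℝ v (c + r • y) (r • h) := by
      simp only [smul_apply, map_smul]
    rw [e1, e2, inner_smul_right, abs_mul, abs_of_pos (by positivity)]
    set Z := fderiv ℝ (fderiv ℝ v) (c + r • y) (r • h) (r • h) + fderiv ℝ v (c + r • y) (r • k)
    calc r ^ 2 * |⟪Z, lap v (c + r • y)⟫| ≤ r ^ 2 *
        (L * ‖fderiv ℝ v (c + r • y) (r • h)‖ ^ 2 * en v (c + r • y) +
          T * (1 + Real.sqrt (en v (c + r • y))) * ‖Z‖) := by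
          gcongr
      _ = L * ‖fderiv ℝ v (c + r • y) (r • h)‖ ^ 2 * (r ^ 2 * en v (c + r • y)) +
          r * T * (r + r * Real.sqrt (en v (c + r • y))) * ‖Z‖ := by ring
      _ ≤ _ := by gcongr
  · intro ρ hρ hρR
    have hh : ∀ S : Set (E 2), hInt (fun y => v (c + r • y)) ((fun y : E 2 => c + r • y) ⁻¹' S) =
        hInt v S := by
      intro S
      unfold hInt
      rw [← sc_lint (c := c) hr (fun x => ENNReal.ofReal (Real.sqrt (hsq v x))) S,
        ← lintegral_const_mul' _ _ ENNReal.ofReal_ne_top]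
      refine lintegral_congr fun y => ?_
      rw [sc_hsq, Real.sqrt_mul (by positivity), Real.sqrt_sq (by positivity),
        ENNReal.ofReal_mul (by positivity)]
    refine ⟨?_, ?_, ?_⟩
    · unfold engy
      rw [← sc_lint (c := c) hr (fun x => ENNReal.ofReal (en v x)) (ball c (r * ρ)),
        ← lintegral_const_mul' _ _ ENNReal.ofReal_ne_top, sc_ball hr]
      refine lintegral_congr fun y => ?_
      rw [sc_en, ENNReal.ofReal_mul (by positivity)]
    · rw [← hh, sc_ball hr]
    · intro a _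
      rw [← hh, preimage_sdiff, sc_ball hr, sc_closedBall hr]

end Pool.Agent.H8.AX
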